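import Pool.Agent.Results.MP_b50d59_nt.ShortIntervals
import Pool.Agent.Results.MP_b50d59_nt.LargePrimeFactor
import Pool.Agent.Y854.GM.Win
import Pool.Agent.Y854.GM.WinV

/-!
# Windows without composite solutions of `n ≡ a(n) (mod φ(n))`

Let `v ≥ 1` be a sequence with exponent of convergence at most `τ` (for `v_k = k ^ b` this is `1 / b`, for `v_k = b ^ k`
or `k!` it is `0`) and `0 ≤ θ < 1`.

(1) For all `α > 0` outside a set of Hausdorff dimension at most `(1 / 2 + τ) / (1 - θ)` and all but finitely many `k`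
there is no composite `n > 4` with `φ(n) ∣ n - a(n)` and `|n - α v_k| ≤ v_k ^ θ`.

(2) Let `1 / 4 < β ≤ 1 / 2`. For all `α > 0` outside a set of dimension at most
`(min (2 (1 - β) / 3) (1 - 3 β / 2) + τ) / (1 - θ)` and all but finitely many `k` these `n` have no prime factor
larger than `v_k ^ β`.

(3) Let `0 ≤ γ ≤ 1 / 2`. For all `α > 0` outside a set of dimension at most `(1 / 2 - γ + τ) / (1 - θ)` and all but
finitely many `k` there are at most `v_k ^ γ` such `n`.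
-/

set_option autoImplicit false

open Finset Filter

namespace Pool.Agent.Results.MP_b50d59_nt.EmptyWindows

/-- the exponent of convergence of the sequence `v` is at most `τ` -/
def ExpLe (v : ℕ → ℝ) (τ : ℝ) : Prop := ∀ t : ℝ, τ < t → Summable (fun n : ℕ => (v n) ^ (-t))

/-- `n > 4` is composite and `n ≡ a(n)` modulo `φ(n)` -/
def Sol (n : ℕ) : Prop := 4 < n ∧ ¬ n.Prime ∧ n.totient ∣ (n - Nca8c8b9b.a n)

open Classical in
lemma count_all (ε : ℝ) (hε : 0 < ε) : ∃ C : ℝ, 0 < C ∧ ∀ X : ℕ, 1 ≤ X →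
    (((Ioc 0 X).filter Sol).card : ℝ) ≤ C * (X : ℝ) ^ (1 / 2 + ε) := by
  obtain ⟨C, hC, h⟩ := ShortIntervals.result
  set D : ℝ := 2 ^ (2 * ε) / (2 * ε) with hD
  have hD0 : 0 < D := by positivity
  refine ⟨C * Real.sqrt D, by positivity, fun X hX => ?_⟩
  have h1 := (h 0 X hX).1
  have hX1 : (1 : ℝ) ≤ X := by exact_mod_cast hX
  have hX0 : (0 : ℝ) < X := by linarith
  have h2 : (((Ioc 0 X).filter Sol).card : ℝ) ≤
      C * Real.sqrt ((X : ℝ) * Real.log (((0 : ℕ) : ℝ) + X + 1)) := by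
    refine le_trans (Nat.cast_le.2 (card_le_card ?_)) h1
    intro n hn
    rw [mem_filter] at hn
    rw [mem_filter, Nat.zero_add]
    exact ⟨hn.1, hn.2⟩
  refine h2.trans ?_
  rw [mul_assoc]
  apply mul_le_mul_of_nonneg_left _ hC.le
  have h3 : (X : ℝ) * Real.log (((0 : ℕ) : ℝ) + X + 1) ≤ D * (X : ℝ) ^ (1 + 2 * ε) := by
    rw [Nat.cast_zero, zero_add]
    have h5 : Real.log ((X : ℝ) + 1) ≤ ((X : ℝ) + 1) ^ (2 * ε) / (2 * ε) :=
      Real.log_le_rpow_div (by linarith) (by positivity)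
    have h6 : ((X : ℝ) + 1) ^ (2 * ε) ≤ 2 ^ (2 * ε) * (X : ℝ) ^ (2 * ε) := by
      rw [← Real.mul_rpow (by norm_num) hX0.le]
      exact Real.rpow_le_rpow (by linarith) (by linarith) (by positivity)
    calc (X : ℝ) * Real.log ((X : ℝ) + 1) ≤ X * ((2 ^ (2 * ε) * (X : ℝ) ^ (2 * ε)) / (2 * ε)) := by
          apply mul_le_mul_of_nonneg_left _ hX0.le
          exact h5.trans (div_le_div_of_nonneg_right h6 (by positivity))
      _ = D * ((X : ℝ) * (X : ℝ) ^ (2 * ε)) := by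
          rw [hD]
          ring
      _ = D * (X : ℝ) ^ (1 + 2 * ε) := by
          rw [Real.rpow_add hX0, Real.rpow_one]
  calc Real.sqrt ((X : ℝ) * Real.log (((0 : ℕ) : ℝ) + X + 1))
      ≤ Real.sqrt (D * (X : ℝ) ^ (1 + 2 * ε)) := Real.sqrt_le_sqrt h3
    _ = Real.sqrt D * Real.sqrt ((X : ℝ) ^ (1 + 2 * ε)) := Real.sqrt_mul hD0.le _
    _ = Real.sqrt D * (X : ℝ) ^ (1 / 2 + ε) := by
        have h7 : Real.sqrt ((X : ℝ) ^ (1 + 2 * ε)) = (X : ℝ) ^ (1 / 2 + ε) := by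
          rw [Real.sqrt_eq_rpow, ← Real.rpow_mul hX0.le]
          congr 1
          ring
        rw [h7]

section

variable {v : ℕ → ℝ} {τ θ : ℝ}

lemma part_one (hv : ∀ k, 1 ≤ v k) (hτ : 0 ≤ τ) (hE : ExpLe v τ) (hθ1 : θ < 1) :
    ∃ E : Set ℝ, dimH E ≤ ENNReal.ofReal ((1 / 2 + τ) / (1 - θ)) ∧
      ∀ α : ℝ, 0 < α → α ∉ E → ∃ k₀ : ℕ, ∀ k : ℕ, k₀ ≤ k → ∀ n : ℕ, |(n : ℝ) - α * v k| ≤ (v k) ^ θ → ¬ Sol n := by
  classical
  obtain ⟨E, h2, h3⟩ := Pool.Agent.Y854.GM.win_nat {n | Sol n} hv hτ hE (s := 1 / 2) (by norm_num) hθ1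
    (fun ε hε => by
      obtain ⟨C, hC, h⟩ := count_all ε hε
      refine ⟨C, fun X hX => le_trans (Nat.cast_le.2 (card_le_card ?_)) (h X hX)⟩
      intro n hn
      rw [mem_filter] at hn
      rw [mem_filter]
      exact ⟨hn.1, hn.2⟩)
  refine ⟨E, h2, fun α hα hαE => ?_⟩
  obtain ⟨k₀, hk⟩ := h3 α hα hαE
  exact ⟨k₀, fun k hk1 n hn => (hk k hk1 n hn).2⟩

lemma part_two (β : ℝ) (hβ : 1 / 4 < β) (hβ1 : β ≤ 1 / 2) (hv : ∀ k, 1 ≤ v k) (hτ : 0 ≤ τ) (hE : ExpLe v τ)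
    (hθ1 : θ < 1) :
    ∃ E : Set ℝ, dimH E ≤ ENNReal.ofReal ((min (2 * (1 - β) / 3) (1 - 3 * β / 2) + τ) / (1 - θ)) ∧
      ∀ α : ℝ, 0 < α → α ∉ E → ∃ k₀ : ℕ, ∀ k : ℕ, k₀ ≤ k → ∀ n : ℕ, |(n : ℝ) - α * v k| ≤ (v k) ^ θ → Sol n →
        ∀ p : ℕ, p.Prime → p ∣ n → (p : ℝ) ≤ (v k) ^ β := by
  classical
  have hvp : ∀ k, 0 < v k := fun k => lt_of_lt_of_le one_pos (hv k)
  have htv : Tendsto v atTop atTop := Pool.Agent.Y854.GM.tendsto_of_expLe hvp hτ hE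
  have hβ0 : 0 < β := by linarith
  set s : ℝ := min (2 * (1 - β) / 3) (1 - 3 * β / 2) with hs
  have hs0 : 0 ≤ s := le_min (by linarith) (by linarith)
  obtain ⟨E, h2, h3⟩ := Pool.Agent.Y854.GM.windowsV
    (fun k => {n : ℕ | Sol n ∧ ∃ p : ℕ, p.Prime ∧ p ∣ n ∧ (v k) ^ β < p}) (fun _ (n : ℕ) => (n : ℝ)) 1 hv hτ hE
    hs0 hθ1 (by
      intro A ε hε
      obtain ⟨C, hC, h⟩ := LargePrimeFactor.result ε hε
      have hA0 : (0 : ℝ) ≤ A := Nat.cast_nonneg A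
      have hvβ : Tendsto (fun k => (v k) ^ β) atTop atTop := (tendsto_rpow_atTop hβ0).comp htv
      obtain ⟨M1, hM1⟩ := (hvβ.eventually (eventually_ge_atTop 2)).exists_forall_of_atTop
      have hv4 : Tendsto (fun k => (v k) ^ (4 * β - 1)) atTop atTop := (tendsto_rpow_atTop (by linarith)).comp htv
      obtain ⟨M2, hM2⟩ := (hv4.eventually (eventually_ge_atTop (16 * ((A : ℝ) + 1)))).exists_forall_of_atTop
      set Q : ℝ := 2 * ((A : ℝ) + 1) with hQ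
      have hQ1 : 1 ≤ Q := by rw [hQ]; linarith
      refine ⟨C * Q ^ ε * Q ^ (2 : ℝ) * 4, max M1 M2, fun k hk => ?_⟩
      have hk1 := hM1 k ((le_max_left _ _).trans hk)
      have hk2 := hM2 k ((le_max_right _ _).trans hk)
      have hvk := hvp k
      set y : ℕ := ⌊(v k) ^ β⌋₊ with hy
      set X : ℕ := ⌊((A : ℝ) + 1) * v k⌋₊ with hX
      have hy1 : (y : ℝ) ≤ (v k) ^ β := Nat.floor_le (by positivity)
      have hy2 : (v k) ^ β / 2 ≤ y := by
        have h1 : (v k) ^ β - 1 < (y : ℝ) := Nat.sub_one_lt_floor _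
        linarith
      have hy3 : (0 : ℝ) < y := by linarith
      have hy4 : 1 ≤ y := by exact_mod_cast hy3
      have hXr : (X : ℝ) ≤ ((A : ℝ) + 1) * v k := Nat.floor_le (by positivity)
      have hX0 : (0 : ℝ) ≤ X := Nat.cast_nonneg _
      have hXy : X ≤ y ^ 4 := by
        have h1 : (X : ℝ) ≤ ((y ^ 4 : ℕ) : ℝ) := by
          push_cast
          have h4 : ((v k) ^ β / 2) ^ 4 ≤ (y : ℝ) ^ 4 := pow_le_pow_left₀ (by positivity) hy2 4
          have h5 : ((v k) ^ β / 2) ^ 4 = (v k) ^ (4 * β - 1) * v k / 16 := by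
            rw [div_pow, ← Real.rpow_natCast ((v k) ^ β) 4, ← Real.rpow_mul hvk.le]
            have h6 : (v k) ^ (4 * β - 1) * v k = (v k) ^ (β * 4) := by
              nth_rw 2 [← Real.rpow_one (v k)]
              rw [← Real.rpow_add hvk]
              congr 1
              ring
            rw [h6]
            norm_num
          have h7 : 16 * ((A : ℝ) + 1) * v k ≤ (v k) ^ (4 * β - 1) * v k :=
            mul_le_mul_of_nonneg_right hk2 hvk.le
          calc (X : ℝ) ≤ ((A : ℝ) + 1) * v k := hXr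
            _ ≤ (v k) ^ (4 * β - 1) * v k / 16 := by linarith
            _ ≤ (y : ℝ) ^ 4 := by rw [← h5]; exact h4
        exact_mod_cast h1
      have hmain := h X y hy4 hXy
      have hsub : {n : ℕ | n ∈ {n : ℕ | Sol n ∧ ∃ p : ℕ, p.Prime ∧ p ∣ n ∧ (v k) ^ β < p} ∧
          (n : ℝ) ≤ ((A : ℝ) + 1) * v k} ⊆ ((Icc 1 X).filter (fun n : ℕ => 4 < n ∧ ¬ n.Prime ∧
            n.totient ∣ (n - Nca8c8b9b.a n) ∧ ∃ p : ℕ, p.Prime ∧ p ∣ n ∧ y < p) : Finset ℕ) := by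
        rintro n ⟨⟨⟨a1, a2, a3⟩, p, a4, a5, a6⟩, a7⟩
        rw [mem_coe, mem_filter, mem_Icc]
        refine ⟨⟨by omega, Nat.le_floor a7⟩, a1, a2, a3, p, a4, a5, ?_⟩
        have h1 : (y : ℝ) < p := lt_of_le_of_lt hy1 a6
        exact_mod_cast h1
      refine ⟨(Finset.finite_toSet _).subset hsub, ?_⟩
      have h1 := Set.ncard_le_ncard hsub (Finset.finite_toSet _)
      rw [Set.ncard_coe_finset] at h1
      have h1' : ({n : ℕ | n ∈ {n : ℕ | Sol n ∧ ∃ p : ℕ, p.Prime ∧ p ∣ n ∧ (v k) ^ β < p} ∧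
          (n : ℝ) ≤ ((A : ℝ) + 1) * v k}.ncard : ℝ) ≤ (((Icc 1 X).filter (fun n : ℕ => 4 < n ∧ ¬ n.Prime ∧
            n.totient ∣ (n - Nca8c8b9b.a n) ∧ ∃ p : ℕ, p.Prime ∧ p ∣ n ∧ y < p)).card : ℝ) := by exact_mod_cast h1
      refine h1'.trans (hmain.trans ?_)
      have hXQ : (X : ℝ) ≤ Q * v k := hXr.trans (by
        rw [hQ]
        nlinarith)
      have e1 : (X : ℝ) ^ ε ≤ Q ^ ε * (v k) ^ ε := by
        rw [← Real.mul_rpow (by positivity) hvk.le]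
        exact Real.rpow_le_rpow hX0 hXQ hε.le
      have e2 : (X : ℝ) / y ≤ Q * (v k) ^ (1 - β) := by
        rw [div_le_iff₀ hy3]
        calc (X : ℝ) ≤ ((A : ℝ) + 1) * v k := hXr
          _ = Q * (v k) ^ (1 - β) * ((v k) ^ β / 2) := by
              have h6 : (v k) ^ (1 - β) * (v k) ^ β = v k := by
                rw [← Real.rpow_add hvk]
                rw [show 1 - β + β = 1 by ring, Real.rpow_one]
              calc ((A : ℝ) + 1) * v k = ((A : ℝ) + 1) * ((v k) ^ (1 - β) * (v k) ^ β) := by rw [h6]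
                _ = Q * (v k) ^ (1 - β) * ((v k) ^ β / 2) := by
                    rw [hQ]
                    ring
          _ ≤ Q * (v k) ^ (1 - β) * y := mul_le_mul_of_nonneg_left hy2 (by positivity)
      have f1 : ((X : ℝ) / y) ^ (2 / 3 : ℝ) ≤ (Q ^ (2 : ℝ) * 4) * (v k) ^ (2 * (1 - β) / 3) := by
        calc ((X : ℝ) / y) ^ (2 / 3 : ℝ) ≤ (Q * (v k) ^ (1 - β)) ^ (2 / 3 : ℝ) :=
              Real.rpow_le_rpow (by positivity) e2 (by norm_num)
          _ = Q ^ (2 / 3 : ℝ) * (v k) ^ (2 * (1 - β) / 3) := by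
              rw [Real.mul_rpow (by positivity) (by positivity), ← Real.rpow_mul hvk.le]
              congr 2
              ring
          _ ≤ (Q ^ (2 : ℝ) * 4) * (v k) ^ (2 * (1 - β) / 3) := by
              apply mul_le_mul_of_nonneg_right _ (by positivity)
              have h8 : Q ^ (2 / 3 : ℝ) ≤ Q ^ (2 : ℝ) := Real.rpow_le_rpow_of_exponent_le hQ1 (by norm_num)
              have h9 : 0 < Q ^ (2 : ℝ) := by positivity
              linarith
      have f2 : (X : ℝ) / (y : ℝ) ^ (3 / 2 : ℝ) ≤ (Q ^ (2 : ℝ) * 4) * (v k) ^ (1 - 3 * β / 2) := by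
        rw [div_le_iff₀ (by positivity)]
        have h7 : ((v k) ^ β / 2) ^ (3 / 2 : ℝ) ≤ (y : ℝ) ^ (3 / 2 : ℝ) :=
          Real.rpow_le_rpow (by positivity) hy2 (by norm_num)
        have h8 : ((v k) ^ β / 2) ^ (3 / 2 : ℝ) = (v k) ^ (3 * β / 2) / 2 ^ (3 / 2 : ℝ) := by
          rw [Real.div_rpow (by positivity) (by norm_num), ← Real.rpow_mul hvk.le]
          congr 2
          ring
        have h9 : (2 : ℝ) ^ (3 / 2 : ℝ) ≤ 4 := by
          calc (2 : ℝ) ^ (3 / 2 : ℝ) ≤ (2 : ℝ) ^ (2 : ℝ) :=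
                Real.rpow_le_rpow_of_exponent_le (by norm_num) (by norm_num)
            _ = 4 := by norm_num
        have h10 : (v k) ^ (3 * β / 2) / 4 ≤ (y : ℝ) ^ (3 / 2 : ℝ) := by
          refine le_trans ?_ h7
          rw [h8]
          exact div_le_div_of_nonneg_left (by positivity) (by positivity) h9
        have h11 : (v k) ^ (1 - 3 * β / 2) * (v k) ^ (3 * β / 2) = v k := by
          rw [← Real.rpow_add hvk]
          rw [show 1 - 3 * β / 2 + 3 * β / 2 = 1 by ring, Real.rpow_one]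
        have h12 : Q ≤ Q ^ (2 : ℝ) := by
          nth_rw 1 [← Real.rpow_one Q]
          exact Real.rpow_le_rpow_of_exponent_le hQ1 (by norm_num)
        calc (X : ℝ) ≤ Q * v k := hXQ
          _ ≤ Q ^ (2 : ℝ) * v k := mul_le_mul_of_nonneg_right h12 hvk.le
          _ = (Q ^ (2 : ℝ) * 4) * (v k) ^ (1 - 3 * β / 2) * ((v k) ^ (3 * β / 2) / 4) := by
              calc Q ^ (2 : ℝ) * v k = Q ^ (2 : ℝ) * ((v k) ^ (1 - 3 * β / 2) * (v k) ^ (3 * β / 2)) := by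
                    rw [h11]
                _ = (Q ^ (2 : ℝ) * 4) * (v k) ^ (1 - 3 * β / 2) * ((v k) ^ (3 * β / 2) / 4) := by ring
          _ ≤ (Q ^ (2 : ℝ) * 4) * (v k) ^ (1 - 3 * β / 2) * (y : ℝ) ^ (3 / 2 : ℝ) :=
              mul_le_mul_of_nonneg_left h10 (by positivity)
      have f3 : min (((X : ℝ) / y) ^ (2 / 3 : ℝ)) ((X : ℝ) / (y : ℝ) ^ (3 / 2 : ℝ)) ≤
          (Q ^ (2 : ℝ) * 4) * (v k) ^ s := by
        rcases min_choice (2 * (1 - β) / 3) (1 - 3 * β / 2) with h9 | h9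
        · rw [hs, h9]
          exact (min_le_left _ _).trans f1
        · rw [hs, h9]
          exact (min_le_right _ _).trans f2
      calc C * (X : ℝ) ^ ε * min (((X : ℝ) / y) ^ (2 / 3 : ℝ)) ((X : ℝ) / (y : ℝ) ^ (3 / 2 : ℝ))
          ≤ C * (Q ^ ε * (v k) ^ ε) * ((Q ^ (2 : ℝ) * 4) * (v k) ^ s) := by
            apply mul_le_mul (mul_le_mul_of_nonneg_left e1 hC.le) f3 _ (by positivity)
            exact le_min (by positivity) (by positivity)
        _ = C * Q ^ ε * Q ^ (2 : ℝ) * 4 * ((v k) ^ s * (v k) ^ ε) := by ring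
        _ = C * Q ^ ε * Q ^ (2 : ℝ) * 4 * (v k) ^ (s + ε) := by
            rw [← Real.rpow_add hvk])
  refine ⟨E, h2, fun α hα hαE => ?_⟩
  obtain ⟨k₀, hk⟩ := h3 α hα hαE
  refine ⟨k₀, fun k hk1 n hn hsol p hp hpn => ?_⟩
  by_contra hcon
  push Not at hcon
  have h1 := hk k hk1 n ⟨hsol, p, hp, hpn, hcon⟩
  rw [one_mul] at h1
  exact absurd h1 (not_lt.2 hn)

lemma part_three (γ : ℝ) (hγ1 : γ ≤ 1 / 2) (hv : ∀ k, 1 ≤ v k) (hτ : 0 ≤ τ) (hE : ExpLe v τ)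
    (hθ1 : θ < 1) :
    ∃ E : Set ℝ, dimH E ≤ ENNReal.ofReal ((1 / 2 - γ + τ) / (1 - θ)) ∧
      ∀ α : ℝ, 0 < α → α ∉ E → ∃ k₀ : ℕ, ∀ k : ℕ, k₀ ≤ k →
        ({n : ℕ | Sol n ∧ |(n : ℝ) - α * v k| ≤ (v k) ^ θ}.ncard : ℝ) ≤ (v k) ^ γ := by
  classical
  have hvp : ∀ k, 0 < v k := fun k => lt_of_lt_of_le one_pos (hv k)
  have htv : Tendsto v atTop atTop := Pool.Agent.Y854.GM.tendsto_of_expLe hvp hτ hE
  -- the block of `n`
  set f : ℕ → ℕ → ℕ := fun k n => ⌊(n : ℝ) / (v k) ^ θ⌋₊ with hf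
  obtain ⟨E, h2, h3⟩ := Pool.Agent.Y854.GM.windowsV
    (fun k => {j : ℕ | (v k) ^ γ / 4 < ({n : ℕ | Sol n ∧ f k n = j}.ncard : ℝ)})
    (fun k (j : ℕ) => (j : ℝ) * (v k) ^ θ) 2 hv hτ hE (s := 1 / 2 - γ) (by linarith) hθ1 (by
      intro A ε hε
      obtain ⟨C, hC, h⟩ := count_all ε hε
      have hA0 : (0 : ℝ) ≤ A := Nat.cast_nonneg A
      refine ⟨4 * (C * ((A : ℝ) + 2) ^ (1 / 2 + ε)), 0, fun k _ => ?_⟩
      have hvk := hvp k
      have hvθ : (v k) ^ θ ≤ v k := by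
        calc (v k) ^ θ ≤ (v k) ^ (1 : ℝ) := Real.rpow_le_rpow_of_exponent_le (hv k) hθ1.le
          _ = v k := Real.rpow_one _
      have hvθ0 : 0 < (v k) ^ θ := by positivity
      set X : ℕ := ⌊((A : ℝ) + 2) * v k⌋₊ with hX
      have hXr : (X : ℝ) ≤ ((A : ℝ) + 2) * v k := Nat.floor_le (by positivity)
      have hX1 : 1 ≤ X := by
        apply Nat.le_floor
        push_cast
        have := hv k
        nlinarith
      set J : Finset ℕ := (range (⌊((A : ℝ) + 1) * v k / (v k) ^ θ⌋₊ + 1)).filter (fun j =>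
        (v k) ^ γ / 4 < ({n : ℕ | Sol n ∧ f k n = j}.ncard : ℝ)) with hJ
      have hsub : {j : ℕ | j ∈ {j : ℕ | (v k) ^ γ / 4 < ({n : ℕ | Sol n ∧ f k n = j}.ncard : ℝ)} ∧
          (j : ℝ) * (v k) ^ θ ≤ ((A : ℝ) + 1) * v k} ⊆ (J : Set ℕ) := by
        rintro j ⟨a1, a2⟩
        rw [mem_coe, hJ, mem_filter, mem_range]
        refine ⟨Nat.lt_succ_of_le (Nat.le_floor ?_), a1⟩
        rw [le_div_iff₀ hvθ0]
        exact a2
      refine ⟨(Finset.finite_toSet _).subset hsub, ?_⟩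
      have h1 := Set.ncard_le_ncard hsub (Finset.finite_toSet _)
      rw [Set.ncard_coe_finset] at h1
      have hfib : ∀ j ∈ J, {n : ℕ | Sol n ∧ f k n = j} =
          (((Ioc 0 X).filter Sol).filter (fun n => f k n = j) : Finset ℕ) := by
        intro j hj
        rw [hJ, mem_filter, mem_range] at hj
        ext n
        rw [mem_coe, mem_filter, mem_filter, mem_Ioc]
        constructor
        · rintro ⟨a1, a2⟩
          refine ⟨⟨⟨by have := a1.1; omega, ?_⟩, a1⟩, a2⟩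
          apply Nat.le_floor
          have b1 : (n : ℝ) / (v k) ^ θ < (j : ℝ) + 1 := by
            rw [← a2]
            exact Nat.lt_floor_add_one _
          rw [div_lt_iff₀ hvθ0] at b1
          have b2 : (j : ℝ) ≤ ((A : ℝ) + 1) * v k / (v k) ^ θ := by
            have b3 : j ≤ ⌊((A : ℝ) + 1) * v k / (v k) ^ θ⌋₊ := by omega
            exact (Nat.cast_le.2 b3).trans (Nat.floor_le (by positivity))
          rw [le_div_iff₀ hvθ0] at b2
          nlinarith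
        · rintro ⟨⟨-, a1⟩, a2⟩
          exact ⟨a1, a2⟩
      have h4 : (J.card : ℝ) * ((v k) ^ γ / 4) ≤ (((Ioc 0 X).filter Sol).card : ℝ) := by
        have h5 : ∑ j ∈ J, ((((Ioc 0 X).filter Sol).filter (fun n => f k n = j)).card : ℝ) ≤
            (((Ioc 0 X).filter Sol).card : ℝ) := by
          rw [← Nat.cast_sum]
          apply Nat.cast_le.2
          rw [Finset.sum_card_fiberwise_eq_card_filter]
          exact card_filter_le _ _
        refine le_trans ?_ h5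
        rw [← nsmul_eq_mul]
        apply Finset.card_nsmul_le_sum
        intro j hj
        have h6 := hfib j hj
        rw [hJ, mem_filter] at hj
        have h7 := hj.2
        rw [h6, Set.ncard_coe_finset] at h7
        exact h7.le
      have h5 := h X hX1
      have hvγ : 0 < (v k) ^ γ := by positivity
      have h6 : (J.card : ℝ) ≤ 4 * (C * ((A : ℝ) + 2) ^ (1 / 2 + ε)) * ((v k) ^ (1 / 2 + ε) / (v k) ^ γ) := by
        have h7 : (X : ℝ) ^ (1 / 2 + ε) ≤ ((A : ℝ) + 2) ^ (1 / 2 + ε) * (v k) ^ (1 / 2 + ε) := by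
          rw [← Real.mul_rpow (by positivity) hvk.le]
          exact Real.rpow_le_rpow (Nat.cast_nonneg _) hXr (by positivity)
        have h8 : (J.card : ℝ) * ((v k) ^ γ / 4) ≤
            C * (((A : ℝ) + 2) ^ (1 / 2 + ε) * (v k) ^ (1 / 2 + ε)) :=
          h4.trans (h5.trans (mul_le_mul_of_nonneg_left h7 hC.le))
        rw [← le_div_iff₀ (by positivity)] at h8
        refine h8.trans (le_of_eq ?_)
        field_simp
      calc (({j : ℕ | j ∈ {j : ℕ | (v k) ^ γ / 4 < ({n : ℕ | Sol n ∧ f k n = j}.ncard : ℝ)} ∧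
          (j : ℝ) * (v k) ^ θ ≤ ((A : ℝ) + 1) * v k}.ncard : ℕ) : ℝ) ≤ (J.card : ℝ) := by exact_mod_cast h1
        _ ≤ 4 * (C * ((A : ℝ) + 2) ^ (1 / 2 + ε)) * ((v k) ^ (1 / 2 + ε) / (v k) ^ γ) := h6
        _ = 4 * (C * ((A : ℝ) + 2) ^ (1 / 2 + ε)) * (v k) ^ (1 / 2 - γ + ε) := by
            rw [← Real.rpow_sub hvk]
            congr 2
            ring)
  refine ⟨E, h2, fun α hα hαE => ?_⟩
  obtain ⟨k₀, hk⟩ := h3 α hα hαE
  have h1θ : 0 < 1 - θ := by linarith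
  have hvθ : Tendsto (fun n => (v n) ^ (1 - θ)) atTop atTop := (tendsto_rpow_atTop h1θ).comp htv
  obtain ⟨M2, hM2⟩ := (hvθ.eventually (eventually_ge_atTop (2 / α))).exists_forall_of_atTop
  refine ⟨max k₀ M2, fun k hk1 => ?_⟩
  have hk0 : k₀ ≤ k := (le_max_left _ _).trans hk1
  have hk2 : M2 ≤ k := (le_max_right _ _).trans hk1
  have hvk := hvp k
  have hvθ0 : 0 < (v k) ^ θ := by positivity
  set z : ℝ := α * v k / (v k) ^ θ with hz
  have hz2 : 2 ≤ z := by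
    have h1 := hM2 k hk2
    have h3 : v k = (v k) ^ (1 - θ) * (v k) ^ θ := by
      rw [← Real.rpow_add hvk]
      rw [show 1 - θ + θ = 1 by ring, Real.rpow_one]
    have h4 : z = α * (v k) ^ (1 - θ) := by
      rw [hz, div_eq_iff hvθ0.ne']
      calc α * v k = α * ((v k) ^ (1 - θ) * (v k) ^ θ) := by rw [← h3]
        _ = α * (v k) ^ (1 - θ) * (v k) ^ θ := by ring
    rw [h4]
    calc (2 : ℝ) = α * (2 / α) := by field_simp
      _ ≤ α * (v k) ^ (1 - θ) := mul_le_mul_of_nonneg_left h1 hα.le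
  have hαz : α * v k = z * (v k) ^ θ := by
    rw [hz]
    field_simp
  -- the window is covered by three blocks
  set j0 : ℕ := ⌊z⌋₊ with hj0
  have hj0a : (j0 : ℝ) ≤ z := Nat.floor_le (by linarith)
  have hj0b : z < (j0 : ℝ) + 1 := Nat.lt_floor_add_one z
  have hj01 : 1 ≤ j0 := Nat.le_floor (by push_cast; linarith)
  have hblock : ∀ j : ℕ, j0 ≤ j + 1 → j ≤ j0 + 1 →
      ({n : ℕ | Sol n ∧ f k n = j}.ncard : ℝ) ≤ (v k) ^ γ / 4 := by
    intro j ha hb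
    by_contra hcon
    push Not at hcon
    refine absurd (hk k hk0 j hcon) (not_lt.2 ?_)
    show |(j : ℝ) * (v k) ^ θ - α * v k| ≤ 2 * (v k) ^ θ
    have ha' : (j0 : ℝ) ≤ (j : ℝ) + 1 := by exact_mod_cast ha
    have hb' : (j : ℝ) ≤ (j0 : ℝ) + 1 := by exact_mod_cast hb
    rw [hαz, ← sub_mul, abs_mul, abs_of_pos hvθ0]
    apply mul_le_mul_of_nonneg_right _ hvθ0.le
    rw [abs_le]
    constructor
    · linarith
    · linarith
  have hcov : {n : ℕ | Sol n ∧ |(n : ℝ) - α * v k| ≤ (v k) ^ θ} ⊆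
      ({n : ℕ | Sol n ∧ f k n = j0 - 1} ∪ {n : ℕ | Sol n ∧ f k n = j0}) ∪
        {n : ℕ | Sol n ∧ f k n = j0 + 1} := by
    rintro n ⟨a1, a2⟩
    obtain ⟨a3, a4⟩ := abs_le.1 a2
    have b1 : (n : ℝ) / (v k) ^ θ ≤ z + 1 := by
      rw [div_le_iff₀ hvθ0, add_mul, ← hαz]
      linarith
    have b2 : z - 1 ≤ (n : ℝ) / (v k) ^ θ := by
      rw [le_div_iff₀ hvθ0, sub_mul, ← hαz]
      linarith
    have c1 : f k n < j0 + 2 := by
      rw [hf]
      apply (Nat.floor_lt (by positivity)).2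
      push_cast
      linarith
    have c2 : j0 - 1 ≤ f k n := by
      rw [hf]
      apply Nat.le_floor
      rw [Nat.cast_sub hj01]
      push_cast
      linarith
    have c3 : f k n = j0 - 1 ∨ f k n = j0 ∨ f k n = j0 + 1 := by omega
    rcases c3 with h | h | h
    · exact Or.inl (Or.inl ⟨a1, h⟩)
    · exact Or.inl (Or.inr ⟨a1, h⟩)
    · exact Or.inr ⟨a1, h⟩
  have hfinb : ∀ j : ℕ, {n : ℕ | Sol n ∧ f k n = j}.Finite := by
    intro j
    refine (Set.finite_Iio ⌈((j : ℝ) + 1) * (v k) ^ θ⌉₊).subset ?_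
    rintro n ⟨-, a2⟩
    have b1 : (n : ℝ) / (v k) ^ θ < (j : ℝ) + 1 := by
      rw [← a2]
      exact Nat.lt_floor_add_one _
    rw [div_lt_iff₀ hvθ0] at b1
    exact Nat.lt_ceil.2 b1
  have h5 := Set.ncard_le_ncard hcov (((hfinb _).union (hfinb _)).union (hfinb _))
  have h6 := h5.trans ((Set.ncard_union_le _ _).trans (Nat.add_le_add_right (Set.ncard_union_le _ _) _))
  have h7 : ({n : ℕ | Sol n ∧ |(n : ℝ) - α * v k| ≤ (v k) ^ θ}.ncard : ℝ) ≤
      (({n : ℕ | Sol n ∧ f k n = j0 - 1}.ncard : ℝ) + ({n : ℕ | Sol n ∧ f k n = j0}.ncard : ℝ)) +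
        ({n : ℕ | Sol n ∧ f k n = j0 + 1}.ncard : ℝ) := by exact_mod_cast h6
  have g1 := hblock (j0 - 1) (by omega) (by omega)
  have g2 := hblock j0 (by omega) (by omega)
  have g3 := hblock (j0 + 1) (by omega) (by omega)
  have g4 : 0 < (v k) ^ γ := by positivity
  linarith

end

/-- **Theorem.** Let `v ≥ 1` be a sequence of exponent of convergence at most `τ ≥ 0` and `θ < 1`. (1) There is a set `E` of
Hausdorff dimension at most `(1 / 2 + τ) / (1 - θ)` such that for each `α > 0` outside `E` and all but finitely many `k`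
no composite `n > 4` with `φ(n) ∣ n - a(n)` satisfies `|n - α v_k| ≤ v_k ^ θ`. (2) Let `1 / 4 < β ≤ 1 / 2`. There is `E` of
dimension at most `(min (2 (1 - β) / 3) (1 - 3 β / 2) + τ) / (1 - θ)` such that for each `α > 0` outside `E` and all but
finitely many `k` no composite `n > 4` with `φ(n) ∣ n - a(n)` and `|n - α v_k| ≤ v_k ^ θ` has a prime factor larger than
`v_k ^ β`. (3) Let `0 ≤ γ ≤ 1 / 2`. There is `E` of dimension at most `(1 / 2 - γ + τ) / (1 - θ)` such that for each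
`α > 0` outside `E` and all but finitely many `k` there are at most `v_k ^ γ` composite `n > 4` with `φ(n) ∣ n - a(n)` and
`|n - α v_k| ≤ v_k ^ θ`. The sequences `v_k = (k + 1) ^ b` and `v_k = b ^ k` have exponent of convergence at most `1 / b`
and `0`. -/
theorem result :
    (∀ (v : ℕ → ℝ) (τ θ : ℝ), (∀ k, 1 ≤ v k) → 0 ≤ τ → ExpLe v τ → θ < 1 →
      (∃ E : Set ℝ, dimH E ≤ ENNReal.ofReal ((1 / 2 + τ) / (1 - θ)) ∧
        ∀ α : ℝ, 0 < α → α ∉ E → ∃ k₀ : ℕ, ∀ k : ℕ, k₀ ≤ k →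
          ∀ n : ℕ, |(n : ℝ) - α * v k| ≤ (v k) ^ θ → ¬ Sol n) ∧
      (∀ β : ℝ, 1 / 4 < β → β ≤ 1 / 2 →
        ∃ E : Set ℝ, dimH E ≤ ENNReal.ofReal ((min (2 * (1 - β) / 3) (1 - 3 * β / 2) + τ) / (1 - θ)) ∧
        ∀ α : ℝ, 0 < α → α ∉ E → ∃ k₀ : ℕ, ∀ k : ℕ, k₀ ≤ k → ∀ n : ℕ, |(n : ℝ) - α * v k| ≤ (v k) ^ θ → Sol n →
          ∀ p : ℕ, p.Prime → p ∣ n → (p : ℝ) ≤ (v k) ^ β) ∧
      (∀ γ : ℝ, 0 ≤ γ → γ ≤ 1 / 2 →
        ∃ E : Set ℝ, dimH E ≤ ENNReal.ofReal ((1 / 2 - γ + τ) / (1 - θ)) ∧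
        ∀ α : ℝ, 0 < α → α ∉ E → ∃ k₀ : ℕ, ∀ k : ℕ, k₀ ≤ k →
          ({n : ℕ | Sol n ∧ |(n : ℝ) - α * v k| ≤ (v k) ^ θ}.ncard : ℝ) ≤ (v k) ^ γ)) ∧
    (∀ b : ℝ, 0 < b → ExpLe (fun n : ℕ => ((n : ℝ) + 1) ^ b) (1 / b)) ∧
    (∀ b : ℝ, 1 < b → ExpLe (fun n : ℕ => b ^ n) 0) :=
  ⟨fun _ _ _ hv hτ hE hθ1 => ⟨part_one hv hτ hE hθ1, fun β hβ hβ1 => part_two β hβ hβ1 hv hτ hE hθ1,
    fun γ _ hγ1 => part_three γ hγ1 hv hτ hE hθ1⟩,
    fun κ hκ => Pool.Agent.Y854.GM.expLe_pow κ hκ, fun b hb => Pool.Agent.Y854.GM.expLe_geom b hb⟩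

end Pool.Agent.Results.MP_b50d59_nt.EmptyWindows
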