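import Mathlib
import Pool.Prelude.Def_F_72ad9e24
import Pool.Agent.Y928.LS.Short
import Pool.Agent.H95R2.Leh.Congr

/-!
# Composite `n` with `φ(n) ∣ n - a(n)` in short intervals

Every interval `(x, x + y]` contains at most `C √(y log (x + y + 1))` composite integers `n > 4` with
`φ(n) ∣ n - a(n)`, and at most `C √(y K)` with at most `K` prime factors.
-/

set_option autoImplicit false

namespace Pool.Agent.Results.MP_b50d59_nt.ShortIntervals

open Finset
open Pool.Agent.H95R2.Leh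

/-- There is `C` such that for all `x` and `y ≥ 1` the interval `(x, x + y]` contains at most
`C √(y log (x + y + 1))` composite integers `n > 4` with `φ(n) ∣ n - a(n)`, and for every `K ≥ 1` at
most `C √(y K)` of them with at most `K` prime factors; here `a(n)` is the largest exponent in the
prime factorisation of `n`. -/
theorem result : ∃ C : ℝ, 0 < C ∧ ∀ x y : ℕ, 1 ≤ y →
    (((Finset.Ioc x (x + y)).filter (fun n : ℕ =>
      4 < n ∧ ¬ n.Prime ∧ n.totient ∣ (n - Nca8c8b9b.a n))).card : ℝ) ≤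
      C * Real.sqrt ((y : ℝ) * Real.log ((x : ℝ) + y + 1)) ∧
    ∀ K : ℕ, 1 ≤ K → (((Finset.Ioc x (x + y)).filter (fun n : ℕ =>
      4 < n ∧ ¬ n.Prime ∧ n.totient ∣ (n - Nca8c8b9b.a n) ∧ n.primeFactors.card ≤ K)).card : ℝ) ≤
      C * Real.sqrt ((y : ℝ) * K) := by
  classical
  obtain ⟨C, hC, h⟩ := Pool.Agent.Y928.LS.short
  have hK : ∀ x y K : ℕ, 1 ≤ y → 1 ≤ K → (((Finset.Ioc x (x + y)).filter (fun n : ℕ =>
      4 < n ∧ ¬ n.Prime ∧ n.totient ∣ (n - Nca8c8b9b.a n) ∧ n.primeFactors.card ≤ K)).card : ℝ) ≤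
      C * Real.sqrt ((y : ℝ) * K) := by
    intro x y K hy hK
    refine le_trans ?_ (h x y K hy hK)
    have hsub : (Finset.Ioc x (x + y)).filter (fun n : ℕ =>
        4 < n ∧ ¬ n.Prime ∧ n.totient ∣ (n - Nca8c8b9b.a n) ∧ n.primeFactors.card ≤ K) ⊆
        (Ioc x (x + y)).filter (fun n => Leh n ∧ n.primeFactors.card ≤ K) := by
      intro n hn
      rw [Finset.mem_filter] at hn ⊢
      exact ⟨hn.1, leh_of_congr hn.2.1 hn.2.2.1 hn.2.2.2.1, hn.2.2.2.2⟩
    exact_mod_cast Finset.card_le_card hsub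
  refine ⟨2 * C, by linarith, ?_⟩
  intro x y hy
  have hyR : (1 : ℝ) ≤ y := by exact_mod_cast hy
  have hxR : (0 : ℝ) ≤ x := Nat.cast_nonneg x
  constructor
  · have hl2 := Real.log_two_gt_d9
    have hl2p : 0 < Real.log 2 := by linarith
    obtain ⟨K, hKd⟩ : ∃ K : ℕ, K = ⌊Real.log ((x : ℝ) + y) / Real.log 2⌋₊ + 1 := ⟨_, rfl⟩
    have hlog0 : 0 ≤ Real.log ((x : ℝ) + y) := Real.log_nonneg (by linarith)
    have hlog1 : Real.log ((x : ℝ) + y) ≤ Real.log ((x : ℝ) + y + 1) :=
      Real.log_le_log (by linarith) (by linarith)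
    have hlog2 : Real.log 2 ≤ Real.log ((x : ℝ) + y + 1) := Real.log_le_log (by norm_num) (by linarith)
    have hKle : (K : ℝ) ≤ 4 * Real.log ((x : ℝ) + y + 1) := by
      have h1 : (K : ℝ) ≤ Real.log ((x : ℝ) + y) / Real.log 2 + 1 := by
        rw [hKd]
        push_cast
        have := Nat.floor_le (div_nonneg hlog0 hl2p.le)
        linarith
      have h2 : Real.log ((x : ℝ) + y) / Real.log 2 ≤ 3 / 2 * Real.log ((x : ℝ) + y + 1) := by
        rw [div_le_iff₀ hl2p]
        nlinarith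
      linarith
    have h1 := hK x y K hy (by rw [hKd]; omega)
    have hsub : (Finset.Ioc x (x + y)).filter (fun n : ℕ =>
        4 < n ∧ ¬ n.Prime ∧ n.totient ∣ (n - Nca8c8b9b.a n)) ⊆
        (Finset.Ioc x (x + y)).filter (fun n : ℕ =>
        4 < n ∧ ¬ n.Prime ∧ n.totient ∣ (n - Nca8c8b9b.a n) ∧ n.primeFactors.card ≤ K) := by
      intro n hn
      rw [Finset.mem_filter] at hn ⊢
      refine ⟨hn.1, hn.2.1, hn.2.2.1, hn.2.2.2, ?_⟩
      have h2 := Tot.card_le n (by omega)
      have hnx : (n : ℝ) ≤ x + y := by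
        have := (Finset.mem_Ioc.1 hn.1).2
        exact_mod_cast this
      have hn0 : (0 : ℝ) < n := by
        have : 0 < n := by omega
        exact_mod_cast this
      have h3 : Real.log n ≤ Real.log ((x : ℝ) + y) := Real.log_le_log hn0 hnx
      have h4 : (n.primeFactors.card : ℝ) ≤ Real.log ((x : ℝ) + y) / Real.log 2 := by
        rw [le_div_iff₀ hl2p]
        linarith
      have h5 : n.primeFactors.card ≤ ⌊Real.log ((x : ℝ) + y) / Real.log 2⌋₊ := Nat.le_floor h4
      omega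
    calc (((Finset.Ioc x (x + y)).filter (fun n : ℕ =>
        4 < n ∧ ¬ n.Prime ∧ n.totient ∣ (n - Nca8c8b9b.a n))).card : ℝ) ≤
        (((Finset.Ioc x (x + y)).filter (fun n : ℕ =>
        4 < n ∧ ¬ n.Prime ∧ n.totient ∣ (n - Nca8c8b9b.a n) ∧ n.primeFactors.card ≤ K)).card : ℝ) := by
          exact_mod_cast Finset.card_le_card hsub
      _ ≤ C * Real.sqrt ((y : ℝ) * K) := h1
      _ ≤ C * Real.sqrt (2 ^ 2 * ((y : ℝ) * Real.log ((x : ℝ) + y + 1))) := by
          apply mul_le_mul_of_nonneg_left _ (by linarith)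
          apply Real.sqrt_le_sqrt
          nlinarith
      _ = 2 * C * Real.sqrt ((y : ℝ) * Real.log ((x : ℝ) + y + 1)) := by
          rw [Real.sqrt_mul (by positivity), Real.sqrt_sq (by norm_num)]
          ring
  · intro K hK1
    refine (hK x y K hy hK1).trans ?_
    apply mul_le_mul_of_nonneg_right _ (Real.sqrt_nonneg _)
    linarith

end Pool.Agent.Results.MP_b50d59_nt.ShortIntervals
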